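import Pool.Agent.Y856.PD.C

/-! The densities of the predecessor sets: the relation with the densities of the preimages, and the
dyadic blocks. -/

set_option autoImplicit false

namespace Pool.Agent.Y856.PD

open Pool.Agent.H499R2.ND Filter Topology

theorem cnt_disj {P Q R : ℕ → Prop} (h : ∀ n, 1 ≤ n → (P n ↔ Q n ∨ R n))
    (hd : ∀ n, 1 ≤ n → Q n → ¬ R n) (N : ℕ) : cnt P N = cnt Q N + cnt R N := by
  rw [cnt_ncard, cnt_ncard, cnt_ncard]
  have e : {n : ℕ | 1 ≤ n ∧ n ≤ N ∧ P n} = {n : ℕ | 1 ≤ n ∧ n ≤ N ∧ Q n} ∪ {n : ℕ | 1 ≤ n ∧ n ≤ N ∧ R n} := by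
    ext n
    simp only [Set.mem_setOf_eq, Set.mem_union]
    constructor
    · rintro ⟨h1, h2, h3⟩
      rcases (h n h1).1 h3 with h4 | h4
      · exact Or.inl ⟨h1, h2, h4⟩
      · exact Or.inr ⟨h1, h2, h4⟩
    · rintro (⟨h1, h2, h3⟩ | ⟨h1, h2, h3⟩)
      · exact ⟨h1, h2, (h n h1).2 (Or.inl h3)⟩
      · exact ⟨h1, h2, (h n h1).2 (Or.inr h3)⟩
  have hdis : Disjoint {n : ℕ | 1 ≤ n ∧ n ≤ N ∧ Q n} {n : ℕ | 1 ≤ n ∧ n ≤ N ∧ R n} := by
    rw [Set.disjoint_left]
    rintro n ⟨h1, _, h3⟩ ⟨_, _, h4⟩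
    exact hd n h1 h3 h4
  rw [e, Set.ncard_union_eq hdis ((Set.finite_Iic N).subset fun n hn => hn.2.1)
    ((Set.finite_Iic N).subset fun n hn => hn.2.1)]
  push_cast
  ring

/-- two different preimages of `a` on one trajectory make `a` periodic -/
theorem periodic_of_two {a b b' n i j : ℕ} (hb : Tn b = a) (hb' : Tn b' = a) (hne : b ≠ b')
    (hi : Tn^[i] n = b) (hj : Tn^[j] n = b') : ∃ k, 0 < k ∧ Tn^[k] a = a := by
  have key : ∀ {b b' i j : ℕ}, Tn b = a → Tn b' = a → Tn^[i] n = b → Tn^[j] n = b' → i < j →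
      ∃ k, 0 < k ∧ Tn^[k] a = a := by
    intro b b' i j hb hb' hi hj hij
    obtain ⟨m, rfl⟩ : ∃ m, j = m + 1 + i := ⟨j - i - 1, by omega⟩
    rw [Function.iterate_add_apply, hi, Function.iterate_succ_apply, hb] at hj
    refine ⟨m + 1, by omega, ?_⟩
    rw [Function.iterate_succ_apply', hj, hb']
  rcases lt_trichotomy i j with h | h | h
  · exact key hb hb' hi hj h
  · subst h; exact absurd (hi.symm.trans hj) hne
  · exact key hb' hb hj hi h

theorem Tn_two (a : ℕ) : Tn (2 * a) = a := by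
  simp only [Tn]; rw [if_pos (by omega)]; omega

theorem Tn_third {a : ℕ} (ha : a % 3 = 2) : Tn ((2 * a - 1) / 3) = a := by
  simp only [Tn]; rw [if_neg (by omega)]; omega

theorem Pr_cases {a : ℕ} (n : ℕ) :
    Pr a n ↔ (n = a ∨ Pr (2 * a) n) ∨ (a % 3 = 2 ∧ Pr ((2 * a - 1) / 3) n) := by
  constructor
  · rintro ⟨k, hk⟩
    rcases k with _ | k
    · exact Or.inl (Or.inl hk)
    · rw [Function.iterate_succ_apply'] at hk
      set m := Tn^[k] n with hm
      by_cases h : m % 2 = 0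
      · refine Or.inl (Or.inr ⟨k, ?_⟩)
        simp only [Tn] at hk
        rw [if_pos h] at hk
        rw [← hm]; omega
      · right
        simp only [Tn] at hk
        rw [if_neg h] at hk
        refine ⟨by omega, k, ?_⟩
        rw [← hm]; omega
  · rintro ((h | ⟨k, hk⟩) | ⟨h, k, hk⟩)
    · exact ⟨0, h⟩
    · exact ⟨k + 1, by rw [Function.iterate_succ_apply', hk, Tn_two]⟩
    · exact ⟨k + 1, by rw [Function.iterate_succ_apply', hk, Tn_third h]⟩

theorem cnt_single (a : ℕ) : Tendsto (fun N : ℕ => cnt (fun n => n = a) N / N) atTop (𝓝 0) := by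
  refine squeeze_zero (fun N => div_nonneg (Nat.cast_nonneg _) (Nat.cast_nonneg _)) (fun N => ?_)
    tendsto_one_div_atTop_nhds_zero_nat
  apply div_le_div_of_nonneg_right _ (Nat.cast_nonneg _)
  rw [cnt_ncard]
  have h : {n : ℕ | 1 ≤ n ∧ n ≤ N ∧ n = a}.ncard ≤ ({a} : Set ℕ).ncard :=
    Set.ncard_le_ncard (fun n hn => hn.2.2) (Set.finite_singleton a)
  rw [Set.ncard_singleton] at h
  exact_mod_cast h

/-- the density of the predecessor set of a non-periodic integer is the sum of those of its preimages -/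
theorem dens_rec {a : ℕ} (ha : 0 < a) (hper : ∀ k, 0 < k → Tn^[k] a ≠ a) :
    dens a = dens (2 * a) + if a % 3 = 2 then dens ((2 * a - 1) / 3) else 0 := by
  have hnot : ∀ {b b' n : ℕ}, Tn b = a → Tn b' = a → b ≠ b' → Pr b n → ¬ Pr b' n := by
    rintro b b' n hb hb' hne ⟨i, hi⟩ ⟨j, hj⟩
    obtain ⟨k, hk, hk'⟩ := periodic_of_two hb hb' hne hi hj
    exact hper k hk hk'
  have hself : ∀ {b : ℕ}, Tn b = a → ¬ Pr b a := by
    rintro b hb ⟨i, hi⟩
    exact hper (i + 1) (by omega) (by rw [Function.iterate_succ_apply', hi, hb])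
  have h1 : ∀ N, cnt (fun n => n = a ∨ Pr (2 * a) n) N = cnt (fun n => n = a) N + cnt (Pr (2 * a)) N :=
    fun N => cnt_disj (fun n _ => Iff.rfl) (fun n _ h h' => by
      subst h
      exact hself (Tn_two n) h') N
  by_cases h3 : a % 3 = 2
  · rw [if_pos h3]
    have h2 : ∀ N, cnt (Pr a) N = cnt (fun n => n = a ∨ Pr (2 * a) n) N + cnt (Pr ((2 * a - 1) / 3)) N :=
      fun N => cnt_disj (fun n _ => by rw [Pr_cases]; tauto) (fun n _ h h' => by
        rcases h with rfl | h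
        · exact hself (Tn_third h3) h'
        · exact hnot (Tn_two a) (Tn_third h3) (by omega) h h') N
    refine tendsto_nhds_unique (dens_spec a) ?_
    have h4 := ((cnt_single a).add (dens_spec (2 * a))).add (dens_spec ((2 * a - 1) / 3))
    rw [zero_add] at h4
    refine h4.congr fun N => ?_
    rw [h2, h1]; ring
  · rw [if_neg h3, add_zero]
    have h2 : ∀ N, cnt (Pr a) N = cnt (fun n => n = a) N + cnt (Pr (2 * a)) N := by
      intro N
      rw [← h1]
      apply congrArg (fun P => cnt P N)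
      funext n
      rw [propext (Pr_cases n)]
      simp [h3]
    refine tendsto_nhds_unique (dens_spec a) ?_
    have h4 := (cnt_single a).add (dens_spec (2 * a))
    rw [zero_add] at h4
    refine h4.congr fun N => ?_
    rw [h2]; ring

/-- the dyadic blocks -/
theorem block_limit {a : ℕ} (ha : 0 < a) :
    Tendsto (fun n : ℕ => (({m : ℕ | 2 ^ n * a ≤ m ∧ m < 2 ^ (n + 1) * a ∧ Pr a m}.ncard : ℕ) : ℝ) / 2 ^ n)
      atTop (𝓝 (a * dens a)) := by
  have haR : (0 : ℝ) < a := by exact_mod_cast ha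
  have hN : Tendsto (fun n : ℕ => 2 ^ n * a - 1) atTop atTop := by
    apply tendsto_atTop_mono (f := fun n : ℕ => n) _ tendsto_id
    intro n
    have h1 : n < 2 ^ n := Nat.lt_two_pow_self
    have h2 : 2 ^ n ≤ 2 ^ n * a := Nat.le_mul_of_pos_right _ ha
    omega
  have h1 : Tendsto (fun n : ℕ => cnt (Pr a) (2 ^ n * a - 1) / ((2 ^ n * a - 1 : ℕ) : ℝ)) atTop
      (𝓝 (dens a)) := (dens_spec a).comp hN
  have h2 : Tendsto (fun n : ℕ => ((2 ^ n * a - 1 : ℕ) : ℝ) / 2 ^ n) atTop (𝓝 a) := by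
    have h3 : Tendsto (fun n : ℕ => (a : ℝ) - (1 / 2 : ℝ) ^ n) atTop (𝓝 (a - 0)) :=
      tendsto_const_nhds.sub (tendsto_pow_atTop_nhds_zero_of_lt_one (by norm_num) (by norm_num))
    rw [sub_zero] at h3
    refine h3.congr fun n => ?_
    have h4 : 1 ≤ 2 ^ n * a := Nat.mul_pos (by positivity) ha
    rw [Nat.cast_sub h4]
    push_cast
    field_simp
    rw [one_div, inv_pow]
    field_simp
  have h5 : Tendsto (fun n : ℕ => cnt (Pr a) (2 ^ n * a - 1) / 2 ^ n) atTop (𝓝 (a * dens a)) := by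
    have h6 := h1.mul h2
    rw [mul_comm (dens a)] at h6
    refine h6.congr' ?_
    filter_upwards [eventually_ge_atTop 1] with n hn
    have h7 : (0 : ℝ) < ((2 ^ n * a - 1 : ℕ) : ℝ) := by
      have h8 : 2 ≤ 2 ^ n := by
        calc 2 = 2 ^ 1 := by norm_num
          _ ≤ 2 ^ n := Nat.pow_le_pow_right (by norm_num) hn
      have h9 : 2 ^ n ≤ 2 ^ n * a := Nat.le_mul_of_pos_right _ ha
      have : 0 < 2 ^ n * a - 1 := by omega
      exact_mod_cast this
    field_simp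
  have h8 : Tendsto (fun n : ℕ => 2 * (cnt (Pr a) (2 ^ (n + 1) * a - 1) / 2 ^ (n + 1))
      - cnt (Pr a) (2 ^ n * a - 1) / 2 ^ n) atTop (𝓝 (2 * (a * dens a) - a * dens a)) :=
    ((h5.comp (tendsto_add_atTop_nat 1)).const_mul 2).sub h5
  rw [show 2 * ((a : ℝ) * dens a) - a * dens a = a * dens a by ring] at h8
  refine h8.congr fun n => ?_
  have h9 : cnt (Pr a) (2 ^ (n + 1) * a - 1) = cnt (Pr a) (2 ^ n * a - 1)
      + ({m : ℕ | 2 ^ n * a ≤ m ∧ m < 2 ^ (n + 1) * a ∧ Pr a m}.ncard : ℝ) := by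
    rw [cnt_ncard, cnt_ncard]
    have hp : 1 ≤ 2 ^ n * a := Nat.mul_pos (by positivity) ha
    have hpp : 2 ^ (n + 1) * a = 2 * (2 ^ n * a) := by ring
    have e : {m : ℕ | 1 ≤ m ∧ m ≤ 2 ^ (n + 1) * a - 1 ∧ Pr a m}
        = {m : ℕ | 1 ≤ m ∧ m ≤ 2 ^ n * a - 1 ∧ Pr a m}
          ∪ {m : ℕ | 2 ^ n * a ≤ m ∧ m < 2 ^ (n + 1) * a ∧ Pr a m} := by
      ext m
      simp only [Set.mem_setOf_eq, Set.mem_union]
      constructor
      · rintro ⟨g1, g2, g3⟩
        rcases Nat.lt_or_ge m (2 ^ n * a) with g | g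
        · exact Or.inl ⟨g1, by omega, g3⟩
        · exact Or.inr ⟨g, by omega, g3⟩
      · rintro (⟨g1, g2, g3⟩ | ⟨g1, g2, g3⟩)
        · exact ⟨g1, by omega, g3⟩
        · exact ⟨by omega, by omega, g3⟩
    have hdis : Disjoint {m : ℕ | 1 ≤ m ∧ m ≤ 2 ^ n * a - 1 ∧ Pr a m}
        {m : ℕ | 2 ^ n * a ≤ m ∧ m < 2 ^ (n + 1) * a ∧ Pr a m} := by
      rw [Set.disjoint_left]
      rintro m ⟨_, g2, _⟩ ⟨g3, _, _⟩
      omega
    rw [e, Set.ncard_union_eq hdis ((Set.finite_Iic _).subset fun n hn => hn.2.1)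
      ((Set.finite_Iio _).subset fun n hn => hn.2.1)]
    push_cast
    ring
  rw [h9, pow_succ]
  field_simp
  ring

end Pool.Agent.Y856.PD
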