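import Pool.Agent.H499R2.NDLimit

/-! Sets which are forward invariant above a threshold: the one-stage inequality and the equidistribution
in the classes of odd integers modulo powers of three.  (The proofs are those of `NDStep3` and `NDEqui`
for invariant sets, all of whose steps take place far above the threshold.) -/

set_option autoImplicit false

namespace Pool.Agent.Y856.PD

open Pool.Agent.H499R2.ND Pool.Agent.H320R2.PD Finset

/-- sets of odd integers which are forward invariant for `x ↦ (3x+d)/2^e` above `y` -/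
def FwdA (y : ℝ) (d : ℤ) (S : Set ℤ) : Prop :=
  ∀ (M x : ℤ) (e : ℕ), 1 ≤ e → Odd M → Odd x → y < (M : ℝ) → y < (x : ℝ) → M ∈ S →
    3 * M + d = 2 ^ e * x → x ∈ S

/-- forward invariance above `y`, along words all of whose steps stay above `y` -/
theorem path_memA {d : ℤ} (hd : Odd d) {y : ℝ} (hy : |(d : ℝ)| ≤ y) {S : Set ℤ} (hS : FwdA y d S)
    (w : List ℕ) : (∀ a ∈ w, 1 ≤ a) → ∀ M x : ℤ, Odd M → Odd x → M ∈ S → Vw d w M x →
      y * 2 ^ w.sum < (M : ℝ) → x ∈ S := by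
  have hy0 : 0 ≤ y := le_trans (abs_nonneg _) hy
  induction w using List.reverseRecOn with
  | nil =>
    intro _ M x _ _ hMS h _
    unfold Vw at h; simp [Wo] at h; rwa [← h]
  | append_singleton u e ih =>
    intro hw M x hM hx hMS h hyM
    have hu : ∀ a ∈ u, 1 ≤ a := fun a ha => hw a (by simp [ha])
    obtain ⟨M₁, hM₁, h1, h2⟩ := Vw_snoc hd hu hx h
    rw [List.sum_append, List.sum_singleton, pow_add] at hyM
    have h2u : (1 : ℝ) ≤ 2 ^ u.sum := one_le_pow₀ (by norm_num)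
    have h2e : (1 : ℝ) ≤ 2 ^ e := one_le_pow₀ (by norm_num)
    have hyu : y ≤ y * 2 ^ u.sum := le_mul_of_one_le_right hy0 h2u
    have hyue : y * 2 ^ u.sum ≤ y * (2 ^ u.sum * 2 ^ e) := by
      rw [← mul_assoc]
      exact le_mul_of_one_le_right (by positivity) h2e
    have hM0 : y < (M : ℝ) := by linarith
    have h1R : (3 : ℝ) * M + d = 2 ^ e * M₁ := by exact_mod_cast h1
    have hM₁y : y * 2 ^ u.sum < (M₁ : ℝ) := by
      have hd' := neg_abs_le (d : ℝ)
      have g1 : (2 : ℝ) ^ e * (y * 2 ^ u.sum) < 2 ^ e * M₁ := by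
        rw [← h1R]
        have : (2 : ℝ) ^ e * (y * 2 ^ u.sum) = y * (2 ^ u.sum * 2 ^ e) := by ring
        rw [this]
        linarith
      exact lt_of_mul_lt_mul_left g1 (by positivity)
    exact ih hu M₁ x hM₁ hx (hS M M₁ e (hw e (by simp)) hM hM₁ hM0 (by linarith) hMS h1) h2 hM₁y

/-- THE ONE-STAGE INEQUALITY -/
theorem starA {d : ℤ} (hd : Odd d) (hd3 : IsCoprime d 3) {y : ℝ} (hy : |(d : ℝ)| ≤ y) {S : Set ℤ}
    (hS : FwdA y d S) {A : ℝ}
    (hA : 0 ≤ A) (cap k m m' Tl Tm : ℕ) (hk : 1 ≤ k) (hm' : m' ≤ k) (hTm : Tm ≤ k * cap)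
    (hyA : y * 2 ^ Tm < A) (c : ℤ) :
    ((cls S A (2 * A) m 1 c).card : ℝ)
      ≤ (∑ w ∈ GW cap k Tl Tm, ((cls S (A * 3 ^ k / 2 ^ w.sum) (2 * (A * 3 ^ k / 2 ^ w.sum)) m'
            (2 ^ w.sum) (d * Wo w)).card : ℝ)) / 3 ^ (k + m - m')
        + (A / (2 * 3 ^ m) + 2 ^ Tm)
            * ∑ T ∈ range (k * cap + 1), dev (FWT cap k T) wwt (fun w => (Wo w : ℤ)) (k + m) m'
        + A / (2 * 3 ^ m) * (1 - ∑ w ∈ GW cap k Tl Tm, wwt w)
        + 1 + (|(d : ℝ)| + 2) * 2 ^ Tm := by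
  classical
  set G := GW cap k Tl Tm with hG
  set F := cls S A (2 * A) m 1 c with hF
  set All := cls Set.univ A (2 * A) m 1 c with hAll
  have hGprop : ∀ w ∈ G, w.length = k ∧ (∀ e ∈ w, 1 ≤ e) ∧ w.sum ≤ Tm := by
    intro w hw
    rw [hG] at hw; unfold GW at hw
    rw [mem_filter] at hw
    exact ⟨(FW_props hw.1).1, (FW_props hw.1).2, hw.2.2⟩
  have hne : ∀ w ∈ G, w ≠ [] := by
    intro w hw h
    have := (hGprop w hw).1
    rw [h] at this; simp at this; omega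
  have hXall : ∀ w ∈ G, XX d A k m c w ⊆ All := by
    intro w hw M hM
    obtain ⟨x, hx, hV⟩ := XX_word (hGprop w hw).1 hM
    have hMo := Vw_odd_left hd (hGprop w hw).2.1 (hne w hw) hV
    rw [hAll, mem_cls]
    rw [mem_XX] at hM
    exact ⟨hM.1, hMo, Set.mem_univ _, hM.2.2⟩
  have hdisj : (G : Set (List ℕ)).PairwiseDisjoint (fun w => XX d A k m c w) := by
    intro w hw w' hw' hww
    rw [Function.onFun, Finset.disjoint_left]
    intro M hM hM'
    apply hww
    have hw1 := hGprop w (mem_coe.1 hw)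
    have hw2 := hGprop w' (mem_coe.1 hw')
    obtain ⟨x, hx, hV⟩ := XX_word hw1.1 hM
    obtain ⟨x', hx', hV'⟩ := XX_word hw2.1 hM'
    exact word_unique hd w hw1.2.1 w' hw2.2.1 (hw1.1.trans hw2.1.symm) M x x' hx hx' hV hV'
  -- step 1
  have hcover : F ⊆ (G.biUnion fun w => F ∩ XX d A k m c w) ∪ (All \ G.biUnion fun w => XX d A k m c w) := by
    intro M hM
    rw [mem_union, mem_biUnion, mem_sdiff, mem_biUnion]
    by_cases h : ∃ w ∈ G, M ∈ XX d A k m c w
    · obtain ⟨w, hw, hMw⟩ := h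
      exact Or.inl ⟨w, hw, mem_inter.2 ⟨hM, hMw⟩⟩
    · refine Or.inr ⟨?_, h⟩
      rw [hF, mem_cls] at hM
      rw [hAll, mem_cls]
      exact ⟨hM.1, hM.2.1, Set.mem_univ _, hM.2.2.2⟩
  have hUsub : (G.biUnion fun w => XX d A k m c w) ⊆ All := biUnion_subset.2 hXall
  have hcard1 : (F.card : ℝ) ≤ ∑ w ∈ G, ((F ∩ XX d A k m c w).card : ℝ)
      + (All.card - ∑ w ∈ G, ((XX d A k m c w).card : ℝ)) := by
    have h1 : F.card ≤ (G.biUnion fun w => F ∩ XX d A k m c w).card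
        + (All \ G.biUnion fun w => XX d A k m c w).card :=
      (card_le_card hcover).trans (card_union_le _ _)
    have h2 : (G.biUnion fun w => F ∩ XX d A k m c w).card ≤ ∑ w ∈ G, (F ∩ XX d A k m c w).card :=
      card_biUnion_le
    have h3 : (All \ G.biUnion fun w => XX d A k m c w).card + (G.biUnion fun w => XX d A k m c w).card
        = All.card := card_sdiff_add_card_eq_card hUsub
    have h4 : (G.biUnion fun w => XX d A k m c w).card = ∑ w ∈ G, (XX d A k m c w).card :=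
      card_biUnion hdisj
    rw [h4] at h3
    have h1' : (F.card : ℝ) ≤ (G.biUnion fun w => F ∩ XX d A k m c w).card
        + (All \ G.biUnion fun w => XX d A k m c w).card := by exact_mod_cast h1
    have h2' : ((G.biUnion fun w => F ∩ XX d A k m c w).card : ℝ)
        ≤ ∑ w ∈ G, ((F ∩ XX d A k m c w).card : ℝ) := by exact_mod_cast h2
    have h3' : ((All \ G.biUnion fun w => XX d A k m c w).card : ℝ)
        + ∑ w ∈ G, ((XX d A k m c w).card : ℝ) = All.card := by exact_mod_cast h3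
    linarith
  have hAllcard : (All.card : ℝ) ≤ A / (2 * 3 ^ m) + 1 := by
    have := cls_card_le Set.univ (by linarith : A ≤ 2 * A) m isCoprime_one_left c
    rw [show 2 * A - A = A by ring] at this
    exact this
  have hXcard : ∑ w ∈ G, (A / (2 * 3 ^ m) * wwt w - 1) ≤ ∑ w ∈ G, ((XX d A k m c w).card : ℝ) :=
    sum_le_sum fun w _ => XX_card d k m c w
  rw [sum_sub_distrib, ← mul_sum, sum_const, nsmul_eq_mul, mul_one] at hXcard
  -- step 2 and 3
  have hstep : ∀ w ∈ G, ((F ∩ XX d A k m c w).card : ℝ)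
      ≤ (cls S (A * 3 ^ k / 2 ^ w.sum) (2 * (A * 3 ^ k / 2 ^ w.sum)) (k + m) (2 ^ w.sum)
          (d * Wo w + 3 ^ k * c)).card + (|(d : ℝ)| + 1) := by
    intro w hw
    obtain ⟨hlen, hlet, hwTm⟩ := hGprop w hw
    set T := w.sum with hT
    set L := A * 3 ^ k / 2 ^ T with hL
    have h2T : (0 : ℝ) < 2 ^ T := by positivity
    set s : ℝ := d * Wo w / 2 ^ T with hs
    have hinj : (F ∩ XX d A k m c w).card
        ≤ (cls S (L + s) (2 * L + s) (k + m) (2 ^ T) (d * Wo w + 3 ^ k * c)).card := by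
      apply card_le_card_of_injOn (fun M => (3 ^ k * M + d * Wo w) / 2 ^ T)
      · intro M hM
        rw [mem_coe, mem_inter] at hM
        obtain ⟨hMF, hMX⟩ := hM
        obtain ⟨x, hx, hV⟩ := XX_word hlen hMX
        have hMo := Vw_odd_left hd hlet (hne w hw) hV
        unfold Vw at hV
        rw [hlen] at hV
        have hx2 : (3 ^ k * M + d * Wo w) / 2 ^ T = x := by
          rw [hV, Int.mul_ediv_cancel_left _ (by positivity)]
        rw [mem_coe, mem_cls]
        beta_reduce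
        rw [hx2]
        rw [hF, mem_cls] at hMF
        have hVR : (3 : ℝ) ^ k * M + d * Wo w = 2 ^ T * x := by exact_mod_cast hV
        have hxR : (x : ℝ) = (3 ^ k * M + d * Wo w) / 2 ^ T := by
          rw [eq_div_iff h2T.ne']; linarith
        refine ⟨⟨?_, ?_⟩, hx, ?_, ?_⟩
        · rw [hxR, hL, hs, ← add_div]
          apply div_le_div_of_nonneg_right _ h2T.le
          have := mul_le_mul_of_nonneg_right hMF.1.1 (by positivity : (0 : ℝ) ≤ 3 ^ k)
          linarith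
        · rw [hxR, hL, hs, ← mul_div_assoc, ← add_div]
          apply div_lt_div_of_pos_right _ h2T
          have := mul_lt_mul_of_pos_right hMF.1.2 (by positivity : (0 : ℝ) < 3 ^ k)
          linarith
        · apply path_memA hd hy hS w hlet M x hMo hx hMF.2.2.1
          · unfold Vw; rw [hlen]; exact hV
          · have hy0 : 0 ≤ y := le_trans (abs_nonneg _) hy
            have h2p : (2 : ℝ) ^ w.sum ≤ 2 ^ Tm := pow_le_pow_right₀ (by norm_num) hwTm
            have := mul_le_mul_of_nonneg_left h2p hy0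
            linarith [hMF.1.1]
        · rw [← hV, pow_add, show 3 ^ k * M + d * (Wo w : ℤ) - (d * Wo w + 3 ^ k * c)
            = 3 ^ k * (1 * M - c) by ring]
          exact mul_dvd_mul_left _ hMF.2.2.2
      · intro M hM M' hM' hMM
        rw [mem_coe, mem_inter] at hM hM'
        obtain ⟨x, hx, hV⟩ := XX_word hlen hM.2
        obtain ⟨x', hx', hV'⟩ := XX_word hlen hM'.2
        unfold Vw at hV hV'
        rw [hlen] at hV hV'
        simp only at hMM
        rw [hV, hV', Int.mul_ediv_cancel_left _ (by positivity),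
          Int.mul_ediv_cancel_left _ (by positivity)] at hMM
        rw [hMM] at hV
        have : (3 : ℤ) ^ k * M = 3 ^ k * M' := by linarith
        exact mul_left_cancel₀ (by positivity) this
    have hsabs : |s| ≤ |(d : ℝ)| * (3 / 2) ^ k := by
      rw [hs, abs_div, abs_mul, abs_of_pos h2T, div_le_iff₀ h2T, mul_assoc]
      apply mul_le_mul_of_nonneg_left _ (abs_nonneg _)
      rw [abs_of_nonneg (by positivity)]
      have := Wo_le hlet
      rw [hlen] at this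
      have h3 : (2 : ℝ) ^ T * ((3 / 2 : ℝ) ^ k - 1) ≤ (3 / 2) ^ k * 2 ^ T := by
        have : (0 : ℝ) < 2 ^ T := h2T
        nlinarith
      exact this.trans h3
    have h4 := shift_card S (L := L) hsabs (k + m) (cop_two_pow T) (d * Wo w + 3 ^ k * c)
    have h5 : |(d : ℝ)| * (3 / 2) ^ k / (2 * 3 ^ (k + m)) ≤ |(d : ℝ)| := by
      rw [div_le_iff₀ (by positivity)]
      apply mul_le_mul_of_nonneg_left _ (abs_nonneg _)
      calc (3 / 2 : ℝ) ^ k ≤ 3 ^ k := pow_le_pow_left₀ (by norm_num) (by norm_num) k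
        _ ≤ 3 ^ (k + m) := pow_le_pow_right₀ (by norm_num) (by omega)
        _ ≤ 2 * 3 ^ (k + m) := by linarith [(by positivity : (0 : ℝ) < 3 ^ (k + m))]
    have h6 : ((F ∩ XX d A k m c w).card : ℝ)
        ≤ (cls S (L + s) (2 * L + s) (k + m) (2 ^ T) (d * Wo w + 3 ^ k * c)).card := by
      exact_mod_cast hinj
    linarith
  have hcard2 : ∑ w ∈ G, ((F ∩ XX d A k m c w).card : ℝ)
      ≤ ∑ w ∈ G, ((cls S (A * 3 ^ k / 2 ^ w.sum) (2 * (A * 3 ^ k / 2 ^ w.sum)) (k + m) (2 ^ w.sum)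
          (d * Wo w + 3 ^ k * c)).card : ℝ) + (|(d : ℝ)| + 1) * G.card := by
    refine (sum_le_sum hstep).trans ?_
    rw [sum_add_distrib, sum_const, nsmul_eq_mul]
    linarith
  -- step 4
  have hmixsum : ∑ w ∈ G, ((cls S (A * 3 ^ k / 2 ^ w.sum) (2 * (A * 3 ^ k / 2 ^ w.sum)) (k + m)
        (2 ^ w.sum) (d * Wo w + 3 ^ k * c)).card : ℝ)
      ≤ (∑ w ∈ G, ((cls S (A * 3 ^ k / 2 ^ w.sum) (2 * (A * 3 ^ k / 2 ^ w.sum)) m'
            (2 ^ w.sum) (d * Wo w)).card : ℝ)) / 3 ^ (k + m - m')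
        + (A / (2 * 3 ^ m) + 2 ^ Tm)
            * ∑ T ∈ range (k * cap + 1), dev (FWT cap k T) wwt (fun w => (Wo w : ℤ)) (k + m) m' := by
    rw [hG, sum_GW, sum_GW, sum_div]
    have hT : ∀ T ∈ Icc Tl Tm, ∑ w ∈ FWT cap k T, ((cls S (A * 3 ^ k / 2 ^ w.sum)
          (2 * (A * 3 ^ k / 2 ^ w.sum)) (k + m) (2 ^ w.sum) (d * Wo w + 3 ^ k * c)).card : ℝ)
        ≤ (∑ w ∈ FWT cap k T, ((cls S (A * 3 ^ k / 2 ^ w.sum) (2 * (A * 3 ^ k / 2 ^ w.sum)) m'
            (2 ^ w.sum) (d * Wo w)).card : ℝ)) / 3 ^ (k + m - m')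
          + (A / (2 * 3 ^ m) + 2 ^ Tm) * dev (FWT cap k T) wwt (fun w => (Wo w : ℤ)) (k + m) m' := by
      intro T hT
      rw [mem_Icc] at hT
      have hsum : ∀ w ∈ FWT cap k T, w.sum = T := fun w hw => by
        unfold FWT at hw; exact (mem_filter.1 hw).2
      have h1 := mixT hd3 S (L := A * 3 ^ k / 2 ^ T) (by positivity) cap k m m' T hm' hk c
      have e1 : ∑ w ∈ FWT cap k T, ((cls S (A * 3 ^ k / 2 ^ w.sum)
          (2 * (A * 3 ^ k / 2 ^ w.sum)) (k + m) (2 ^ w.sum) (d * Wo w + 3 ^ k * c)).card : ℝ)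
          = ∑ w ∈ FWT cap k T, ((cls S (A * 3 ^ k / 2 ^ T)
          (2 * (A * 3 ^ k / 2 ^ T)) (k + m) (2 ^ T) (d * Wo w + 3 ^ k * c)).card : ℝ) :=
        sum_congr rfl fun w hw => by rw [hsum w hw]
      have e2 : ∑ w ∈ FWT cap k T, ((cls S (A * 3 ^ k / 2 ^ w.sum) (2 * (A * 3 ^ k / 2 ^ w.sum)) m'
            (2 ^ w.sum) (d * Wo w)).card : ℝ)
          = ∑ w ∈ FWT cap k T, ((cls S (A * 3 ^ k / 2 ^ T) (2 * (A * 3 ^ k / 2 ^ T)) m'
            (2 ^ T) (d * Wo w)).card : ℝ) :=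
        sum_congr rfl fun w hw => by rw [hsum w hw]
      rw [e1, e2]
      refine h1.trans ?_
      have hdev : 0 ≤ dev (FWT cap k T) wwt (fun w => (Wo w : ℤ)) (k + m) m' :=
        sum_nonneg fun _ _ => abs_nonneg _
      have hcoef : 2 ^ T * (A * 3 ^ k / 2 ^ T / (2 * 3 ^ (k + m)) + 1) ≤ A / (2 * 3 ^ m) + 2 ^ Tm := by
        have h2 : (2 : ℝ) ^ T * (A * 3 ^ k / 2 ^ T / (2 * 3 ^ (k + m)) + 1)
            = A / (2 * 3 ^ m) + 2 ^ T := by
          rw [pow_add]
          field_simp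
        rw [h2]
        have h3 : (2 : ℝ) ^ T ≤ 2 ^ Tm := pow_le_pow_right₀ (by norm_num) hT.2
        linarith
      have := mul_le_mul_of_nonneg_right hcoef hdev
      linarith
    refine (sum_le_sum hT).trans ?_
    rw [sum_add_distrib, ← mul_sum]
    apply add_le_add_right
    apply mul_le_mul_of_nonneg_left _ (by positivity)
    apply sum_le_sum_of_subset_of_nonneg
    · intro T hT
      rw [mem_Icc] at hT
      rw [mem_range]; omega
    · intro T _ _; exact sum_nonneg fun _ _ => abs_nonneg _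
  have hGc := GW_card cap k Tl Tm
  rw [← hG] at hGc
  have hfin : (|(d : ℝ)| + 2) * G.card ≤ (|(d : ℝ)| + 2) * 2 ^ Tm :=
    mul_le_mul_of_nonneg_left hGc (by positivity)
  have e3 : A / (2 * 3 ^ m) * (1 - ∑ w ∈ G, wwt w)
      = A / (2 * 3 ^ m) - A / (2 * 3 ^ m) * ∑ w ∈ G, wwt w := by ring
  rw [e3]
  linarith

theorem starB {d : ℤ} (hd : Odd d) (hd3 : IsCoprime d 3) {y : ℝ} (hy : |(d : ℝ)| ≤ y) {S : Set ℤ}
    (hS : FwdA y d S) {A : ℝ}
    (hA : 0 < A) {k m m' : ℕ} (hk : 1 ≤ k) (hm' : m' ≤ k)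
    (hyA : y * 2 ^ (41 * k / 20) < A) (c : ℤ) :
    ((cls S A (2 * A) m 1 c).card : ℝ) ≤ Mn d S A k m m' + Err d A k m m' * (A / (2 * 3 ^ m)) := by
  have hTm : 41 * k / 20 ≤ k * (3 * k) := by nlinarith [Nat.div_mul_le_self (41 * k) 20]
  have h1 := starA hd hd3 hy hS hA.le (3 * k) k m m' ((39 * k + 19) / 20) (41 * k / 20) hk hm' hTm hyA c
  refine h1.trans (le_of_eq ?_)
  unfold Mn Err
  set G := GW (3 * k) k ((39 * k + 19) / 20) (41 * k / 20) with hG
  set δ := ∑ T ∈ range (k * (3 * k) + 1), dev (FWT (3 * k) k T) wwt (fun w => (Wo w : ℤ)) (k + m) m'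
  set X := (2 : ℝ) ^ (41 * k / 20)
  set Y := A / (2 * 3 ^ m) with hY
  set Z := 2 * 3 ^ m / A with hZ
  set μ := ∑ w ∈ G, wwt w
  have hfac : Y * Z = 1 := by rw [hY, hZ]; field_simp
  have : ((1 + X * Z) * δ + (1 - μ) + (1 + (|(d : ℝ)| + 2) * X) * Z) * Y
      = (Y + X * (Y * Z)) * δ + Y * (1 - μ) + (1 + (|(d : ℝ)| + 2) * X) * (Y * Z) := by ring
  rw [this, hfac]
  ring

/-- EQUIDISTRIBUTION of an invariant set in the classes mod `3^m` of odd integers of a window -/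
theorem equi_oddA (B : ℕ) {d : ℤ} (hd : Odd d) (hd3 : IsCoprime d 3) {y : ℝ} (hy : |(d : ℝ)| ≤ y) : ∃ C : ℝ, 0 < C ∧
    ∀ S : Set ℤ, FwdA y d S → FwdA y d Sᶜ → ∀ A : ℝ, 0 < A → 1000 ≤ Real.log A → 5 * y ≤ Real.log A → ∀ m : ℕ,
      (m : ℝ) ^ 2 ≤ Real.log A → ∀ c c' : ℤ,
      ((cls S A (2 * A) m 1 c).card : ℝ)
        ≤ (cls S A (2 * A) m 1 c').card + C / (Real.log A) ^ B * (A / (2 * 3 ^ m)) := by
  obtain ⟨C, hC, herr⟩ := err_bound B d
  refine ⟨3 * C, by positivity, ?_⟩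
  intro S hS hSc A hA ht hyt m hm c c'
  set t := Real.log A with htdef
  obtain ⟨k, hk⟩ : ∃ k : ℕ, k = ⌊t / 2⌋₊ := ⟨_, rfl⟩
  obtain ⟨m', hm'⟩ : ∃ m' : ℕ, m' = ⌊Real.sqrt (0.8 * t)⌋₊ := ⟨_, rfl⟩
  have hk2 : t / 2 - 1 ≤ k := by rw [hk]; linarith [Nat.lt_floor_add_one (t / 2)]
  have hk1N : 1 ≤ k := by
    have : (1 : ℝ) ≤ k := by linarith
    exact_mod_cast this
  have hm'sq : (m' : ℝ) ^ 2 ≤ 0.8 * t := by
    have h1 : (m' : ℝ) ≤ Real.sqrt (0.8 * t) := by
      rw [hm']; exact Nat.floor_le (Real.sqrt_nonneg _)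
    calc (m' : ℝ) ^ 2 ≤ (Real.sqrt (0.8 * t)) ^ 2 :=
          pow_le_pow_left₀ (Nat.cast_nonneg _) h1 2
      _ = 0.8 * t := Real.sq_sqrt (by linarith)
  have hm'k : m' ≤ k := by
    have : (m' : ℝ) ≤ k := by
      have h0 : (0 : ℝ) ≤ m' := Nat.cast_nonneg _
      by_contra hcon
      push Not at hcon
      nlinarith
    exact_mod_cast this
  have hE := herr A hA ht k m m' hm hk hm'
  have hyA : y * 2 ^ (41 * k / 20) < A := by
    have hy0 : 0 ≤ y := le_trans (abs_nonneg _) hy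
    have hk2' : (k : ℝ) ≤ t / 2 := by rw [hk]; exact Nat.floor_le (by linarith)
    have g1 := pow_tm_le (by linarith : (0:ℝ) ≤ t) hk2'
    have g2 : y < Real.exp (t / 5) := by
      have := Real.add_one_le_exp (t / 5)
      linarith
    have g3 : y * 2 ^ (41 * k / 20) ≤ Real.exp (t / 5) * Real.exp (0.7106 * t) :=
      mul_le_mul g2.le g1 (by positivity) (Real.exp_pos _).le
    rw [← Real.exp_add] at g3
    have g4 : Real.exp (t / 5 + 0.7106 * t) < Real.exp t := by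
      apply Real.exp_lt_exp.2
      linarith
    have g5 : Real.exp t = A := by rw [htdef]; exact Real.exp_log hA
    linarith
  rw [← htdef] at hE
  have hY : 0 < A / (2 * 3 ^ m) := by positivity
  have h1 := starB hd hd3 hy hS hA hk1N hm'k hyA (m := m) c
  have h2 := starB hd hd3 hy hSc hA hk1N hm'k hyA (m := m) c'
  have h3 := Mn_add d S hA (m := m) hm'k
  have h4 := cls_compl S A (2 * A) m 1 c'
  have h5 := le_cls_univ A (2 * A) m isCoprime_one_left c'
  rw [show 2 * A - A = A by ring] at h5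
  -- `1 + 2^Tm ≤ Err * Y`
  have h6 : 1 + 2 ^ (41 * k / 20) ≤ Err d A k m m' * (A / (2 * 3 ^ m)) := by
    unfold Err
    set G := GW (3 * k) k ((39 * k + 19) / 20) (41 * k / 20) with hG
    set δ := ∑ T ∈ range (k * (3 * k) + 1), dev (FWT (3 * k) k T) wwt (fun w => (Wo w : ℤ)) (k + m) m'
      with hδ
    set X := (2 : ℝ) ^ (41 * k / 20)
    set Y := A / (2 * 3 ^ m) with hYdef
    set Z := 2 * 3 ^ m / A with hZ
    set μ := ∑ w ∈ G, wwt w with hμ
    have hfac : Y * Z = 1 := by rw [hYdef, hZ]; field_simp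
    have : ((1 + X * Z) * δ + (1 - μ) + (1 + (|(d : ℝ)| + 2) * X) * Z) * Y
        = (Y + X * (Y * Z)) * δ + Y * (1 - μ) + (1 + (|(d : ℝ)| + 2) * X) * (Y * Z) := by ring
    rw [this, hfac]
    have hX : 0 < X := by positivity
    have hδnn : 0 ≤ δ := sum_nonneg fun _ _ => sum_nonneg fun _ _ => abs_nonneg _
    have hμ1 : μ ≤ 1 := by
      refine le_trans ?_ (sum_wwt_le (3 * k) k)
      rw [hμ, hG]; unfold GW
      apply sum_le_sum_of_subset_of_nonneg (filter_subset _ _)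
      intro w _ _; unfold wwt; positivity
    have e1 : 0 ≤ (Y + X * 1) * δ := by positivity
    have e2 : 0 ≤ Y * (1 - μ) := mul_nonneg hY.le (by linarith)
    have e3 : 0 ≤ |(d : ℝ)| * X := by positivity
    nlinarith
  have h7 : Err d A k m m' * (A / (2 * 3 ^ m)) ≤ C / t ^ B * (A / (2 * 3 ^ m)) :=
    mul_le_mul_of_nonneg_right hE hY.le
  have h8 : 3 * C / t ^ B * (A / (2 * 3 ^ m)) = 3 * (C / t ^ B * (A / (2 * 3 ^ m))) := by ring
  rw [h8]
  linarith

end Pool.Agent.Y856.PD
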