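import Pool.Agent.Y856.PD.A

/-! Sets which are invariant above a threshold: equidistribution modulo three, the harmonic relation and the
existence of the natural density.  (The proofs are those of `NDHarm`, `NDHarm2` and `NDLimit`.) -/

set_option autoImplicit false

namespace Pool.Agent.Y856.PD

open Pool.Agent.H499R2.ND Pool.Agent.H320R2.PD Finset

/-- sets of integers which are invariant under `Td d` above `y` -/
def EInv (y : ℝ) (d : ℤ) (S : Set ℤ) : Prop := ∀ x : ℤ, y < (x : ℝ) → (x ∈ S ↔ Td d x ∈ S)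

theorem EInv.compl {y : ℝ} {d : ℤ} {S : Set ℤ} (h : EInv y d S) : EInv y d Sᶜ :=
  fun x hx => not_congr (h x hx)

theorem EInv.two {y : ℝ} (hy : 0 ≤ y) {d : ℤ} {S : Set ℤ} (h : EInv y d S) {x : ℤ} (hx : y < (x : ℝ)) :
    2 * x ∈ S ↔ x ∈ S := by
  rw [h (2 * x) (by push_cast; linarith)]
  have : Td d (2 * x) = x := by unfold Td; rw [if_pos (by omega)]; omega
  rw [this]

theorem EInv.two_pow {y : ℝ} (hy : 0 ≤ y) {d : ℤ} {S : Set ℤ} (h : EInv y d S) (e : ℕ) {x : ℤ}
    (hx : y < (x : ℝ)) : 2 ^ e * x ∈ S ↔ x ∈ S := by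
  induction e with
  | zero => simp
  | succ e ih =>
    have h1 : y < ((2 ^ e * x : ℤ) : ℝ) := by
      push_cast
      have : (1 : ℝ) ≤ 2 ^ e := one_le_pow₀ (by norm_num)
      nlinarith
    rw [pow_succ, mul_comm (2 ^ e) 2, mul_assoc, h.two hy h1, ih]

theorem EInv.odd {y : ℝ} {d : ℤ} {S : Set ℤ} (h : EInv y d S) {n n' : ℤ} (hn : Odd n)
    (hny : y < (n : ℝ)) (hnn : 2 * n' = 3 * n + d) : n ∈ S ↔ n' ∈ S := by
  rw [h n hny]
  have : Td d n = n' := by
    unfold Td
    rw [if_neg (by obtain ⟨t, ht⟩ := hn; omega), ← hnn]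
    omega
  rw [this]

theorem EInv.fwd {y : ℝ} (hy : 0 ≤ y) {d : ℤ} {S : Set ℤ} (h : EInv y d S) : FwdA y d S := by
  intro M x e he hM _ hMy hxy hMS heq
  obtain ⟨e', rfl⟩ : ∃ e', e = e' + 1 := ⟨e - 1, by omega⟩
  have h1 : M ∈ S ↔ 2 ^ e' * x ∈ S := h.odd hM hMy (by rw [heq, pow_succ]; ring)
  rw [h.two_pow hy _ hxy] at h1
  exact h1.1 hMS

/-- parity decomposition -/
theorem wc_parityA {y : ℝ} (hy0 : 0 ≤ y) {d : ℤ} {S : Set ℤ} (h : EInv y d S) {A : ℝ} (hyA : y < A / 2) (c : ℤ) :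
    (wc S A (2 * A) 3 c).card = (cls S A (2 * A) 1 1 c).card + (wc S (A / 2) (2 * (A / 2)) 3 (2 * c)).card := by
  classical
  have hev : (wc S (A / 2) (2 * (A / 2)) 3 (2 * c)).card
      = ((wc S (A / 2) (2 * (A / 2)) 3 (2 * c)).image fun x => 2 * x).card := by
    rw [card_image_of_injective]
    intro x z hxz
    simp only at hxz
    omega
  rw [hev, ← card_union_of_disjoint]
  · congr 1
    ext x
    rw [mem_wc, mem_union, mem_cls, mem_image]
    constructor
    · rintro ⟨h1, h2, h3⟩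
      rcases Int.even_or_odd x with he | ho
      · right
        obtain ⟨z, hz⟩ := he
        refine ⟨z, ?_, by omega⟩
        rw [mem_wc]
        have hxz : (x : ℝ) = 2 * z := by rw [hz]; push_cast; ring
        refine ⟨⟨by linarith [h1.1], by linarith [h1.2]⟩, ?_, by omega⟩
        rw [← h.two hy0 (by linarith [h1.1]), show 2 * z = x by omega]; exact h2
      · left
        exact ⟨h1, ho, h2, by rw [pow_one, one_mul]; exact h3⟩
    · rintro (⟨h1, h2, h3, h4⟩ | ⟨z, hz, rfl⟩)
      · rw [pow_one, one_mul] at h4; exact ⟨h1, h3, h4⟩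
      · rw [mem_wc] at hz
        obtain ⟨h1, h2, h3⟩ := hz
        push_cast
        refine ⟨⟨by linarith [h1.1], by linarith [h1.2]⟩, (h.two hy0 (by linarith [h1.1])).2 h2, by omega⟩
  · rw [Finset.disjoint_left]
    intro x hx hx'
    rw [mem_cls] at hx
    rw [mem_image] at hx'
    obtain ⟨z, _, rfl⟩ := hx'
    have := hx.2.1
    rw [Int.odd_iff] at this
    omega

/-- parity decomposition, all classes -/
theorem wc_parity_oneA {y : ℝ} (hy0 : 0 ≤ y) {d : ℤ} {S : Set ℤ} (h : EInv y d S) {A : ℝ} (hyA : y < A / 2) :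
    (wc S A (2 * A) 1 0).card = (cls S A (2 * A) 0 1 0).card + (wc S (A / 2) (2 * (A / 2)) 1 0).card := by
  classical
  have hev : (wc S (A / 2) (2 * (A / 2)) 1 0).card
      = ((wc S (A / 2) (2 * (A / 2)) 1 0).image fun x => 2 * x).card := by
    rw [card_image_of_injective]
    intro x z hxz
    simp only at hxz
    omega
  rw [hev, ← card_union_of_disjoint]
  · congr 1
    ext x
    rw [mem_wc, mem_union, mem_cls, mem_image]
    constructor
    · rintro ⟨h1, h2, h3⟩
      rcases Int.even_or_odd x with he | ho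
      · right
        obtain ⟨z, hz⟩ := he
        refine ⟨z, ?_, by omega⟩
        rw [mem_wc]
        have hxz : (x : ℝ) = 2 * z := by rw [hz]; push_cast; ring
        refine ⟨⟨by linarith [h1.1], by linarith [h1.2]⟩, ?_, one_dvd _⟩
        rw [← h.two hy0 (by linarith [h1.1]), show 2 * z = x by omega]; exact h2
      · left
        exact ⟨h1, ho, h2, by simp⟩
    · rintro (⟨h1, h2, h3, h4⟩ | ⟨z, hz, rfl⟩)
      · exact ⟨h1, h3, one_dvd _⟩
      · rw [mem_wc] at hz
        obtain ⟨h1, h2, h3⟩ := hz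
        push_cast
        refine ⟨⟨by linarith [h1.1], by linarith [h1.2]⟩, (h.two hy0 (by linarith [h1.1])).2 h2, one_dvd _⟩
  · rw [Finset.disjoint_left]
    intro x hx hx'
    rw [mem_cls] at hx
    rw [mem_image] at hx'
    obtain ⟨z, _, rfl⟩ := hx'
    have := hx.2.1
    rw [Int.odd_iff] at this
    omega

/-- the odd elements of a window and their images -/
theorem cls_odd_imageA {d : ℤ} (hd : Odd d) {y : ℝ} {S : Set ℤ} (h : EInv y d S) {A : ℝ} (hyA : y < A) :
    (cls S A (2 * A) 0 1 0).card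
      = (wc S (3 * A / 2 + d / 2) (2 * (3 * A / 2) + d / 2) 3 (2 * d)).card := by
  classical
  apply card_bij (fun n _ => (3 * n + d) / 2)
  · intro n hn
    rw [mem_cls] at hn
    obtain ⟨h1, h2, h3, _⟩ := hn
    have hev : 2 * ((3 * n + d) / 2) = 3 * n + d := by
      obtain ⟨t, ht⟩ := h2; obtain ⟨s, hs⟩ := hd; omega
    have hR : (2 : ℝ) * (((3 * n + d) / 2 : ℤ) : ℝ) = 3 * n + d := by exact_mod_cast hev
    rw [mem_wc]
    refine ⟨⟨by linarith [h1.1], by linarith [h1.2]⟩, (h.odd h2 (by linarith [h1.1]) hev).1 h3, ?_⟩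
    exact ⟨2 * n - ((3 * n + d) / 2), by omega⟩
  · intro n hn n' hn' heq
    rw [mem_cls] at hn hn'
    have hev : 2 * ((3 * n + d) / 2) = 3 * n + d := by
      obtain ⟨t, ht⟩ := hn.2.1; obtain ⟨s, hs⟩ := hd; omega
    have hev' : 2 * ((3 * n' + d) / 2) = 3 * n' + d := by
      obtain ⟨t, ht⟩ := hn'.2.1; obtain ⟨s, hs⟩ := hd; omega
    omega
  · intro x hx
    rw [mem_wc] at hx
    obtain ⟨h1, h2, t, ht⟩ := hx
    have hn : 2 * x = 3 * (2 * t + d) + d := by omega
    have hodd : Odd (2 * t + d) := (even_two_mul t).add_odd hd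
    have hR : (2 : ℝ) * x = 3 * ((2 * t + d : ℤ) : ℝ) + d := by exact_mod_cast hn
    refine ⟨2 * t + d, ?_, ?_⟩
    · rw [mem_cls]
      refine ⟨⟨by linarith [h1.1], by linarith [h1.2]⟩, hodd, (h.odd hodd (by linarith [h1.1]) hn).2 h2, by simp⟩
    · omega

/-- equidistribution mod 3 of an invariant set -/
theorem equi_allA {d : ℤ} (hd : Odd d) (hd3 : IsCoprime d 3) {y : ℝ} (hy : |(d : ℝ)| ≤ y) : ∃ K : ℝ, 0 < K ∧
    ∀ S : Set ℤ, EInv y d S → ∀ A : ℝ, 0 < A → 1001 + 5 * y ≤ Real.log A → ∀ c c' : ℤ,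
      ((wc S A (2 * A) 3 c).card : ℝ)
        ≤ (wc S A (2 * A) 3 c').card + K / (Real.log A) ^ 2 * A := by
  have hy0 : 0 ≤ y := le_trans (abs_nonneg _) hy
  obtain ⟨C, hC, he⟩ := equi_oddA 2 hd hd3 hy
  refine ⟨C + 2 * (1002 + 5 * y) ^ 2, by positivity, ?_⟩
  intro S hS
  have hl2 := Real.log_two_gt_d9
  have hl2' := Real.log_two_lt_d9
  set K := C + 2 * (1002 + 5 * y) ^ 2 with hK
  have hKpos : 0 < K := by positivity
  have htriv : ∀ A : ℝ, 0 < A → 1001 + 5 * y ≤ Real.log A → Real.log A ≤ 1002 + 5 * y → ∀ c c' : ℤ,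
      ((wc S A (2 * A) 3 c).card : ℝ)
        ≤ (wc S A (2 * A) 3 c').card + K / (Real.log A) ^ 2 * A := by
    intro A hA h1 h2 c c'
    have h3 := wc_card_le S (by linarith : A ≤ 2 * A) (q := 3) (by norm_num) c
    have h4 : 1 ≤ A := by
      have : 0 < Real.log A := by linarith
      exact (Real.log_pos_iff hA.le).1 this |>.le
    have h5 : 2 ≤ K / (Real.log A) ^ 2 := by
      rw [le_div_iff₀ (by have : 0 < Real.log A := by linarith
                          positivity)]
      have : (Real.log A) ^ 2 ≤ (1002 + 5 * y) ^ 2 := pow_le_pow_left₀ (by linarith) h2 2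
      rw [hK]; linarith
    have h6 : 2 * A ≤ K / (Real.log A) ^ 2 * A := mul_le_mul_of_nonneg_right h5 hA.le
    have h7 : (0 : ℝ) ≤ (wc S A (2 * A) 3 c').card := Nat.cast_nonneg _
    push_cast at h3
    have h8 : (2 * A - A) / 3 + 1 ≤ 2 * A := by linarith
    linarith
  have main : ∀ n : ℕ, ∀ A : ℝ, 0 < A → 1001 + 5 * y ≤ Real.log A → Real.log A ≤ 1002 + 5 * y + n * Real.log 2 →
      ∀ c c' : ℤ, ((wc S A (2 * A) 3 c).card : ℝ)
        ≤ (wc S A (2 * A) 3 c').card + K / (Real.log A) ^ 2 * A := by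
    intro n
    induction n with
    | zero =>
      intro A hA h1 h2 c c'
      exact htriv A hA h1 (by simpa using h2) c c'
    | succ n ih =>
      intro A hA h1 h2 c c'
      rcases le_or_gt (Real.log A) (1002 + 5 * y) with h3 | h3
      · exact htriv A hA h1 h3 c c'
      · have hlog : Real.log (A / 2) = Real.log A - Real.log 2 := Real.log_div hA.ne' (by norm_num)
        have hih := ih (A / 2) (by linarith) (by rw [hlog]; linarith) (by
          rw [hlog]; push_cast at h2; linarith) (2 * c) (2 * c')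
        have hodd := he S (hS.fwd hy0) (hS.compl.fwd hy0) A hA (by linarith) (by linarith) 1 (by
          norm_num; linarith) c c'
        have hyA : y < A / 2 := by
          have g1 := Real.add_one_le_exp (Real.log A)
          rw [Real.exp_log hA] at g1
          linarith
        have e1 := wc_parityA hy0 hS hyA c
        have e2 := wc_parityA hy0 hS hyA c'
        have e1' : ((wc S A (2 * A) 3 c).card : ℝ)
            = (cls S A (2 * A) 1 1 c).card + (wc S (A / 2) (2 * (A / 2)) 3 (2 * c)).card := by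
          exact_mod_cast e1
        have e2' : ((wc S A (2 * A) 3 c').card : ℝ)
            = (cls S A (2 * A) 1 1 c').card + (wc S (A / 2) (2 * (A / 2)) 3 (2 * c')).card := by
          exact_mod_cast e2
        rw [e1', e2']
        set t := Real.log A with ht
        have htpos : 0 < t := by linarith
        have hne : (0 : ℝ) < (t - Real.log 2) ^ 2 := by
          have : 0 < t - Real.log 2 := by linarith
          positivity
        have hsq : 0.998 * t ^ 2 ≤ (t - Real.log 2) ^ 2 := by nlinarith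
        have hK1 : K / (Real.log (A / 2)) ^ 2 * (A / 2) ≤ 0.51 * (K / t ^ 2 * A) := by
          rw [hlog]
          have : K / (t - Real.log 2) ^ 2 ≤ K / (0.998 * t ^ 2) :=
            div_le_div_of_nonneg_left hKpos.le (by positivity) hsq
          have h9 : K / (0.998 * t ^ 2) ≤ 1.01 * (K / t ^ 2) := by
            rw [div_mul_eq_div_div_swap, div_le_iff₀ (by norm_num)]
            have : 0 < K / t ^ 2 := by positivity
            nlinarith
          have h10 : 0 < K / t ^ 2 * A := by positivity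
          calc K / (t - Real.log 2) ^ 2 * (A / 2) ≤ (1.01 * (K / t ^ 2)) * (A / 2) :=
                mul_le_mul_of_nonneg_right (this.trans h9) (by linarith)
            _ = 0.505 * (K / t ^ 2 * A) := by ring
            _ ≤ _ := by linarith
        have hC1 : C / t ^ 2 * (A / (2 * 3 ^ 1)) ≤ 0.49 * (K / t ^ 2 * A) := by
          have h9 : C / t ^ 2 ≤ K / t ^ 2 := by
            apply div_le_div_of_nonneg_right _ (by positivity)
            rw [hK]; linarith [(by positivity : (0 : ℝ) < 2 * (1002 + 5 * y) ^ 2)]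
          have h10 : 0 < K / t ^ 2 * A := by positivity
          calc C / t ^ 2 * (A / (2 * 3 ^ 1)) ≤ K / t ^ 2 * (A / (2 * 3 ^ 1)) :=
                mul_le_mul_of_nonneg_right h9 (by positivity)
            _ = (K / t ^ 2 * A) / 6 := by ring
            _ ≤ _ := by linarith
        linarith
  intro A hA h1 c c'
  obtain ⟨n, hn⟩ := exists_nat_ge ((Real.log A - (1002 + 5 * y)) / Real.log 2)
  have : Real.log A ≤ 1002 + 5 * y + n * Real.log 2 := by
    rw [div_le_iff₀ (by linarith)] at hn; linarith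
  exact main n A hA h1 this c c'

/-- THE HARMONIC RELATION -/
theorem harmA {d : ℤ} (hd : Odd d) (hd3 : IsCoprime d 3) {y : ℝ} (hy : |(d : ℝ)| ≤ y) : ∃ K : ℝ, 0 < K ∧
    ∀ S : Set ℤ, EInv y d S → ∀ A : ℝ, 0 < A → 1002 + 5 * y ≤ Real.log A →
      |((wc S A (2 * A) 1 0).card : ℝ) - (wc S (A / 2) (2 * (A / 2)) 1 0).card
        - (wc S (3 * A / 2) (2 * (3 * A / 2)) 1 0).card / 3| ≤ K / (Real.log A) ^ 2 * A := by
  have hy0 : 0 ≤ y := le_trans (abs_nonneg _) hy
  obtain ⟨K, hK, he⟩ := equi_allA hd hd3 hy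
  refine ⟨2 * K + 2 * |(d : ℝ)| + 2, by positivity, ?_⟩
  intro S hS A hA ht
  have hyA : y < A / 2 := by
    have g1 := Real.add_one_le_exp (Real.log A)
    rw [Real.exp_log hA] at g1
    linarith
  have h1 := wc_parity_oneA hy0 hS hyA
  have h2 := cls_odd_imageA hd hS (by linarith : y < A)
  have h1' : ((wc S A (2 * A) 1 0).card : ℝ)
      = (cls S A (2 * A) 0 1 0).card + (wc S (A / 2) (2 * (A / 2)) 1 0).card := by exact_mod_cast h1
  rw [h1', h2]
  set L := 3 * A / 2 with hL
  have hLpos : 0 < L := by positivity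
  have hlogL : Real.log A ≤ Real.log L := Real.log_le_log hA (by rw [hL]; linarith)
  have h3 := wc_shift_le S L (d / 2) 3 (2 * d)
  have h4 := wc_shift_ge S L (d / 2) 3 (2 * d)
  have hthree : ((wc S L (2 * L) 1 0).card : ℝ)
      = (wc S L (2 * L) 3 0).card + (wc S L (2 * L) 3 1).card + (wc S L (2 * L) 3 2).card := by
    exact_mod_cast wc_three S L (2 * L)
  have he' := fun c c' => he S hS L hLpos (by linarith) c c'
  set W := fun c : ℤ => ((wc S L (2 * L) 3 c).card : ℝ) with hW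
  set D := K / (Real.log L) ^ 2 * L with hD
  have u0 := he' (2 * d) 0
  have u1 := he' (2 * d) 1
  have u2 := he' (2 * d) 2
  have v0 := he' 0 (2 * d)
  have v1 := he' 1 (2 * d)
  have v2 := he' 2 (2 * d)
  have hDle : D ≤ 3 / 2 * (K / (Real.log A) ^ 2 * A) := by
    rw [hD, hL]
    have htpos : 0 < Real.log A := by linarith
    have : K / (Real.log (3 * A / 2)) ^ 2 ≤ K / (Real.log A) ^ 2 := by
      apply div_le_div_of_nonneg_left hK.le (by positivity)
      exact pow_le_pow_left₀ htpos.le hlogL 2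
    calc K / (Real.log (3 * A / 2)) ^ 2 * (3 * A / 2) ≤ K / (Real.log A) ^ 2 * (3 * A / 2) :=
          mul_le_mul_of_nonneg_right this (by positivity)
      _ = _ := by ring
  have hD0 : 0 ≤ D := by positivity
  have hd2 : |(d : ℝ) / 2| = |(d : ℝ)| / 2 := by rw [abs_div, abs_of_pos (by norm_num : (0 : ℝ) < 2)]
  rw [hd2] at h3 h4
  -- the constant is absorbed
  have habs : (2 * |(d : ℝ)| + 2) / (Real.log A) ^ 2 * A ≥ |(d : ℝ)| + 1 := by
    have htpos : 0 < Real.log A := by linarith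
    have h5 : (Real.log A) ^ 2 / 2 ≤ A := by
      have := Real.pow_div_factorial_le_exp (Real.log A) htpos.le 2
      rw [Real.exp_log hA] at this
      simpa using this
    rw [ge_iff_le, div_mul_eq_mul_div, le_div_iff₀ (by positivity)]
    have : 0 ≤ |(d : ℝ)| := abs_nonneg _
    nlinarith
  have hfin : (2 * K + 2 * |(d : ℝ)| + 2) / (Real.log A) ^ 2 * A
      = 2 * (K / (Real.log A) ^ 2 * A) + (2 * |(d : ℝ)| + 2) / (Real.log A) ^ 2 * A := by ring
  rw [hfin]
  have h0d : 0 ≤ |(d : ℝ)| := abs_nonneg _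
  have hKA : 0 ≤ K / (Real.log A) ^ 2 * A := by positivity
  rw [abs_le]
  constructor <;> linarith

theorem Fd_harmA {d : ℤ} (hd : Odd d) (hd3 : IsCoprime d 3) {y : ℝ} (hy : |(d : ℝ)| ≤ y) : ∃ K : ℝ, 0 < K ∧
    ∀ S : Set ℤ, EInv y d S → ∀ t : ℝ, 1002 + 5 * y ≤ t →
      |Fd S t - (Fd S (t - Real.log 2) + Fd S (t + Real.log (3 / 2))) / 2| ≤ K / t ^ 2 := by
  have hy0 : 0 ≤ y := le_trans (abs_nonneg _) hy
  obtain ⟨K, hK, h⟩ := harmA hd hd3 hy
  refine ⟨K, hK, fun S hS t ht => ?_⟩
  have he := Real.exp_pos t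
  have h1 := h S hS (Real.exp t) he (by rw [Real.log_exp]; exact ht)
  rw [Real.log_exp] at h1
  have e1 : Real.exp (t - Real.log 2) = Real.exp t / 2 := by
    rw [Real.exp_sub, Real.exp_log (by norm_num)]
  have e2 : Real.exp (t + Real.log (3 / 2)) = 3 * Real.exp t / 2 := by
    rw [Real.exp_add, Real.exp_log (by norm_num)]; ring
  have w0 := Fd_win S t
  have w1 := Fd_win S (t - Real.log 2)
  have w2 := Fd_win S (t + Real.log (3 / 2))
  rw [e1] at w1
  rw [e2] at w2
  rw [← w0, ← w1, ← w2] at h1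
  set A := Real.exp t with hA
  have hrel : Fd S t * (3 * A) - Fd S (t - Real.log 2) * (3 * (A / 2))
      - Fd S (t + Real.log (3 / 2)) * (3 * (3 * A / 2)) / 3
      = (Fd S t - (Fd S (t - Real.log 2) + Fd S (t + Real.log (3 / 2))) / 2) * (3 * A) := by ring
  rw [hrel, abs_mul, abs_of_pos (by positivity : (0 : ℝ) < 3 * A)] at h1
  have hX := abs_nonneg (Fd S t - (Fd S (t - Real.log 2) + Fd S (t + Real.log (3 / 2))) / 2)
  have htpos : 0 < t := by linarith
  have hKt : 0 < K / t ^ 2 := by positivity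
  by_contra hcon
  push Not at hcon
  nlinarith

/-- window densities converge -/
theorem Fd_tendstoA {d : ℤ} (hd : Odd d) (hd3 : IsCoprime d 3) {y : ℝ} (hy : |(d : ℝ)| ≤ y) {S : Set ℤ}
    (hS : EInv y d S) :
    ∃ l : ℝ, Filter.Tendsto (Fd S) Filter.atTop (nhds l) := by
  have hy0 : 0 ≤ y := le_trans (abs_nonneg _) hy
  obtain ⟨K, _, h⟩ := Fd_harmA hd hd3 hy
  exact Pool.Agent.H499R2.HL.harmonic_limit (t0 := 1002 + 5 * y) (L := 10) (C := K) (Fd_meas S) (Fd_nonneg S)
    (Fd_le_one S) (fun t s ht hs hs1 => Fd_lip S t s (by linarith) hs hs1) (fun t ht => h S hS t ht)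

/-- sets which are invariant above a threshold have a natural density (positive side) -/
theorem density_existsA {d : ℤ} (hd : Odd d) (hd3 : IsCoprime d 3) {y : ℝ} (hy : |(d : ℝ)| ≤ y) {S : Set ℤ}
    (hS : EInv y d S) :
    ∃ l : ℝ, Filter.Tendsto (fun X : ℝ => G S X / X) Filter.atTop (nhds l) := by
  obtain ⟨l, hl⟩ := Fd_tendstoA hd hd3 hy hS
  refine ⟨3 * l, ?_⟩
  rw [Metric.tendsto_atTop] at hl ⊢
  intro ε hε
  obtain ⟨T, hT⟩ := hl (ε / 12) (by positivity)
  -- recursion
  have hrec : ∀ X : ℝ, 0 < X → G S (2 * X) / (2 * X) - 3 * l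
      = (G S X / X - 3 * l) / 2 + 3 / 2 * (Fd S (Real.log X) - l) := by
    intro X hX
    unfold Fd
    rw [Real.exp_log hX]
    field_simp
    ring
  set X0 := max (Real.exp T) 1 with hX0
  have hX0pos : 0 < X0 := by positivity
  have hX01 : 1 ≤ X0 := le_max_right _ _
  have hstep : ∀ X : ℝ, X0 ≤ X → |G S (2 * X) / (2 * X) - 3 * l| ≤ |G S X / X - 3 * l| / 2 + ε / 8 := by
    intro X hX
    have hXpos : 0 < X := by linarith
    rw [hrec X hXpos]
    have h1 := hT (Real.log X) (by
      rw [ge_iff_le, Real.le_log_iff_exp_le hXpos]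
      exact (le_max_left _ _).trans hX)
    rw [Real.dist_eq] at h1
    have h2 := abs_add_le ((G S X / X - 3 * l) / 2) (3 / 2 * (Fd S (Real.log X) - l))
    rw [abs_div, abs_mul, abs_of_pos (by norm_num : (0 : ℝ) < 2),
      abs_of_pos (by norm_num : (0 : ℝ) < 3 / 2)] at h2
    linarith
  set M := 1 + |3 * l| with hM
  have hMpos : 0 < M := by positivity
  have hbase : ∀ X : ℝ, X0 ≤ X → |G S X / X - 3 * l| ≤ M := by
    intro X hX
    have hXpos : 0 < X := by linarith
    have h1 : G S X / X ≤ 1 := by rw [div_le_one hXpos]; exact pos_card_le S hXpos.le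
    have h2 : 0 ≤ G S X / X := div_nonneg (G_nonneg S X) hXpos.le
    calc |G S X / X - 3 * l| ≤ |G S X / X| + |3 * l| := abs_sub _ _
      _ ≤ M := by rw [abs_of_nonneg h2]; linarith
  have hiter : ∀ n : ℕ, ∀ X : ℝ, X0 * 2 ^ n ≤ X → |G S X / X - 3 * l| ≤ M / 2 ^ n + ε / 4 := by
    intro n
    induction n with
    | zero =>
      intro X hX
      have := hbase X (by simpa using hX)
      simp only [pow_zero, div_one]
      linarith
    | succ n ih =>
      intro X hX
      have hX2 : X0 * 2 ^ n ≤ X / 2 := by rw [pow_succ] at hX; linarith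
      have h1 := ih (X / 2) hX2
      have h2 := hstep (X / 2) (by
        have : X0 ≤ X0 * 2 ^ n := le_mul_of_one_le_right hX0pos.le (one_le_pow₀ (by norm_num))
        linarith)
      rw [show 2 * (X / 2) = X by ring] at h2
      have h3 : M / 2 ^ (n + 1) = M / 2 ^ n / 2 := by rw [pow_succ]; field_simp
      rw [h3]
      linarith
  obtain ⟨n, hn⟩ := pow_unbounded_of_one_lt (4 * M / ε) (by norm_num : (1 : ℝ) < 2)
  refine ⟨X0 * 2 ^ n, fun X hX => ?_⟩
  rw [Real.dist_eq]
  have h1 := hiter n X hX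
  have h2 : M / 2 ^ n < ε / 4 := by
    rw [div_lt_iff₀ hε] at hn
    rw [div_lt_iff₀ (by positivity)]
    linarith
  linarith

end Pool.Agent.Y856.PD
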