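import Pool.Agent.Y856.PD.B
import Pool.Agent.H499R2.NDCor
import Pool.Agent.H499R2.NDProg
import Pool.Agent.Helper605.CPc
import Pool.Agent.W38.UPDb

/-! Properties of positive integers which are eventually invariant under the `3x+1` map: natural density,
also in residue classes. -/

set_option autoImplicit false

namespace Pool.Agent.Y856.PD

open Pool.Agent.H499R2.ND Filter Topology

theorem cnt_ncard (P : ℕ → Prop) (N : ℕ) :
    cnt P N = ({n : ℕ | 1 ≤ n ∧ n ≤ N ∧ P n}.ncard : ℝ) := rfl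

/-! ### invariance along iterates -/

theorem le_two_Tn (n : ℕ) : n ≤ 2 * Tn n := by
  simp only [Tn]
  split_ifs <;> omega

theorem le_pow_Tn (m : ℕ) : ∀ n : ℕ, n ≤ 2 ^ m * Tn^[m] n := by
  induction m with
  | zero => intro n; simp
  | succ m ih =>
    intro n
    rw [Function.iterate_succ_apply']
    have h1 := ih n
    have h2 := le_two_Tn (Tn^[m] n)
    calc n ≤ 2 ^ m * Tn^[m] n := h1
      _ ≤ 2 ^ m * (2 * Tn (Tn^[m] n)) := Nat.mul_le_mul_left _ h2
      _ = _ := by ring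

/-- eventually invariant properties -/
def Ev (a : ℕ) (P : ℕ → Prop) : Prop := ∀ n : ℕ, a < n → (P n ↔ P (Tn n))

theorem Ev.iter {a : ℕ} {P : ℕ → Prop} (h : Ev a P) (m : ℕ) :
    ∀ n : ℕ, 2 ^ m * a < n → (P n ↔ P (Tn^[m] n)) := by
  induction m with
  | zero => intro n _; rfl
  | succ m ih =>
    intro n hn
    have h2 : 2 ^ m * a < n := lt_of_le_of_lt (by
      rw [pow_succ]; nlinarith [Nat.zero_le (2 ^ m * a)]) hn
    rw [Function.iterate_succ_apply', ih n h2]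
    apply h
    have h3 := le_pow_Tn m n
    have h4 : 2 ^ m * a < 2 ^ m * Tn^[m] n := lt_of_lt_of_le h2 h3
    exact Nat.lt_of_mul_lt_mul_left h4

theorem orb_snd (m n : ℕ) : (Pool.Agent.Helper605.CP.orb m n).2 = Tn^[m] n := by
  induction m with
  | zero => rfl
  | succ m ih =>
    rw [Pool.Agent.Helper605.CP.orb_succ, Function.iterate_succ_apply', ← ih]
    unfold Pool.Agent.Helper605.CP.st1
    simp only [Tn, mul_zero, zero_add]
    split_ifs <;> rfl

/-- an eventually invariant property agrees at `n` and `n + 1`, for almost all `n` -/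
theorem Ev.next {a : ℕ} {P : ℕ → Prop} (h : Ev a P) :
    Tendsto (fun N : ℕ => cnt (fun n => ¬ (P n ↔ P (n + 1))) N / N) atTop (𝓝 0) := by
  have h1 := Pool.Agent.Helper605.CP.density_one {n : ℕ | P n ↔ P (n + 1)} (by
    intro m _
    refine ⟨2 ^ m * a + 1, fun n hn he => ?_⟩
    have e : Tn^[m] n = Tn^[m] (n + 1) := by rw [← orb_snd, ← orb_snd, he]
    change P n ↔ P (n + 1)
    rw [h.iter m n (by omega), h.iter m (n + 1) (by omega), e])
  have h2 : Tendsto (fun N : ℕ => 1 - (({n : ℕ | P n ↔ P (n + 1)} ∩ Set.Icc 1 N).ncard : ℝ) / N) atTop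
      (𝓝 (1 - 1)) := tendsto_const_nhds.sub h1
  rw [sub_self] at h2
  refine h2.congr' ?_
  filter_upwards [eventually_gt_atTop 0] with N hN
  have hNR : (N : ℝ) ≠ 0 := by exact_mod_cast hN.ne'
  have h3 : ({n : ℕ | P n ↔ P (n + 1)} ∩ Set.Icc 1 N).ncard
      + {n : ℕ | 1 ≤ n ∧ n ≤ N ∧ ¬ (P n ↔ P (n + 1))}.ncard = N := by
    have e1 : {n : ℕ | 1 ≤ n ∧ n ≤ N ∧ ¬ (P n ↔ P (n + 1))}
        = Set.Icc 1 N \ {n : ℕ | P n ↔ P (n + 1)} := by
      ext n
      constructor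
      · rintro ⟨g1, g2, g3⟩; exact ⟨⟨g1, g2⟩, g3⟩
      · rintro ⟨⟨g1, g2⟩, g3⟩; exact ⟨g1, g2, g3⟩
    have e2 : {n : ℕ | P n ↔ P (n + 1)} ∩ Set.Icc 1 N = Set.Icc 1 N ∩ {n : ℕ | P n ↔ P (n + 1)} :=
      Set.inter_comm _ _
    rw [e1, e2, Set.ncard_inter_add_ncard_sdiff_eq_ncard _ _ (Set.finite_Icc 1 N)]
    rw [← Finset.coe_Icc, Set.ncard_coe_finset, Nat.card_Icc, Nat.add_sub_cancel]
  rw [cnt_ncard]
  have h4 : ((({n : ℕ | P n ↔ P (n + 1)} ∩ Set.Icc 1 N).ncard : ℕ) : ℝ)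
      + ({n : ℕ | 1 ≤ n ∧ n ≤ N ∧ ¬ (P n ↔ P (n + 1))}.ncard : ℝ) = N := by exact_mod_cast h3
  rw [eq_div_iff hNR, sub_mul, div_mul_cancel₀ _ hNR]
  linarith

/-! ### natural density -/

theorem NS_einv {a : ℕ} (ha : 1 ≤ a) {P : ℕ → Prop} (hP : Ev a P) : EInv (a : ℝ) 1 (NS P) := by
  intro x hxa
  have hx : 1 ≤ x := by
    have h1 : (a : ℤ) < x := by exact_mod_cast hxa
    omega
  have hxn : a < x.toNat := by
    have h1 : (a : ℤ) < x := by exact_mod_cast hxa
    omega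
  have h1 : 1 ≤ Td 1 x := by
    unfold Td; split_ifs <;> omega
  have h2 : (Td 1 x).toNat = Tn x.toNat := by
    unfold Td; simp only [Tn]
    obtain ⟨n, rfl⟩ : ∃ n : ℕ, x = n := ⟨x.toNat, (Int.toNat_of_nonneg (by omega)).symm⟩
    rw [Int.toNat_natCast]
    by_cases h : n % 2 = 0
    · rw [if_pos (by omega), if_pos h]; omega
    · rw [if_neg (by omega), if_neg h]; omega
  constructor
  · rintro ⟨_, h⟩
    refine ⟨h1, ?_⟩
    rw [h2]; exact (hP _ hxn).1 h
  · rintro ⟨_, h⟩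
    rw [h2] at h
    exact ⟨hx, (hP _ hxn).2 h⟩

/-- an eventually invariant property has a natural density -/
theorem Ev.density {a : ℕ} {P : ℕ → Prop} (hP : Ev a P) :
    ∃ l : ℝ, Tendsto (fun N : ℕ => cnt P N / N) atTop (𝓝 l) := by
  have hP' : Ev (a + 1) P := fun n hn => hP n (by omega)
  obtain ⟨l, hl⟩ := density_existsA (d := 1) odd_one isCoprime_one_left (y := ((a + 1 : ℕ) : ℝ))
    (by push_cast; rw [abs_one]; linarith [(Nat.cast_nonneg a : (0 : ℝ) ≤ a)])
    (NS_einv (by omega) hP')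
  refine ⟨l, ?_⟩
  refine (nat_limit hl).congr fun N => ?_
  have h1 := ncard_side (Or.inl rfl : (1 : ℤ) = 1 ∨ (1 : ℤ) = -1) (NS P) N
  have h2 : {x : ℤ | 1 * x ∈ NS P} = NS P := by
    ext x; simp
  rw [h2] at h1
  rw [← h1, NS_ncard, cnt_ncard]

/-- the density in residue classes -/
theorem Ev.classes {a : ℕ} {P : ℕ → Prop} (hP : Ev a P) {l : ℝ}
    (hl : Tendsto (fun N : ℕ => cnt P N / N) atTop (𝓝 l)) {q : ℕ} (hq : 0 < q) (r : ℕ) :
    Tendsto (fun N : ℕ => cnt (fun n => n % q = r % q ∧ P n) N / N) atTop (𝓝 (l / q)) :=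
  prog_density hl hP.next hq r

/-- from integers to reals -/
theorem real_limit {P : ℕ → Prop} {l : ℝ} (hl : Tendsto (fun N : ℕ => cnt P N / N) atTop (𝓝 l)) :
    Tendsto (fun x : ℝ => ({n : ℕ | 0 < n ∧ (n : ℝ) ≤ x ∧ P n}.ncard : ℝ) / x) atTop (𝓝 l) := by
  have h1 : Tendsto (fun x : ℝ => cnt P ⌊x⌋₊ / (⌊x⌋₊ : ℝ)) atTop (𝓝 l) :=
    hl.comp tendsto_nat_floor_atTop
  have h2 := h1.mul (tendsto_nat_floor_div_atTop (R := ℝ))
  rw [mul_one] at h2
  refine h2.congr' ?_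
  filter_upwards [eventually_ge_atTop 1] with x hx
  have hf : 1 ≤ ⌊x⌋₊ := Nat.le_floor (by push_cast; exact hx)
  have hf0 : ((⌊x⌋₊ : ℕ) : ℝ) ≠ 0 := by
    have : (0 : ℝ) < ⌊x⌋₊ := by exact_mod_cast hf
    exact this.ne'
  have e : {n : ℕ | 0 < n ∧ (n : ℝ) ≤ x ∧ P n} = {n : ℕ | 1 ≤ n ∧ n ≤ ⌊x⌋₊ ∧ P n} := by
    ext n
    constructor
    · rintro ⟨g1, g2, g3⟩; exact ⟨g1, Nat.le_floor g2, g3⟩
    · rintro ⟨g1, g2, g3⟩
      exact ⟨g1, le_trans (by exact_mod_cast g2) (Nat.floor_le (by linarith)), g3⟩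
  rw [e, ← cnt_ncard]
  field_simp

/-! ### predecessor sets -/

/-- `n` iterates to `a` -/
def Pr (a n : ℕ) : Prop := ∃ k : ℕ, Tn^[k] n = a

theorem Pr_ev (a : ℕ) : Ev a (Pr a) := by
  intro n hn
  constructor
  · rintro ⟨k, hk⟩
    rcases k with _ | k
    · have : n = a := hk
      omega
    · exact ⟨k, by rwa [Function.iterate_succ_apply] at hk⟩
  · rintro ⟨k, hk⟩
    exact ⟨k + 1, by rwa [Function.iterate_succ_apply]⟩

/-- the natural density of the predecessor set of `a` -/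
noncomputable def dens (a : ℕ) : ℝ := Classical.choose (Pr_ev a).density

theorem dens_spec (a : ℕ) : Tendsto (fun N : ℕ => cnt (Pr a) N / N) atTop (𝓝 (dens a)) :=
  Classical.choose_spec (Pr_ev a).density

theorem dens_nonneg (a : ℕ) : 0 ≤ dens a :=
  ge_of_tendsto' (dens_spec a) fun _ => div_nonneg (Nat.cast_nonneg _) (Nat.cast_nonneg _)

/-- on positive integers the shortcut map is the one on the integers -/
theorem TK_nat (j : ℕ) : ∀ n : ℕ, (Pool.Agent.H366R2.KGen.TK 1)^[j] (n : ℤ) = ((Tn^[j] n : ℕ) : ℤ) := by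
  induction j with
  | zero => intro n; rfl
  | succ j ih =>
    intro n
    rw [Function.iterate_succ_apply, Function.iterate_succ_apply, ← ih]
    congr 1
    unfold Pool.Agent.H366R2.KGen.TK
    simp only [Tn]
    split_ifs <;> omega

/-- the uniform lower bound -/
theorem dens_lower : ∃ c : ℝ, 0 < c ∧ ∀ a : ℕ, 0 < a → ¬ 3 ∣ a → c / a ≤ dens a := by
  obtain ⟨c, C, hc, _, h⟩ := Pool.Agent.W38.UPD.main
  refine ⟨c, hc, fun a ha ha3 => ?_⟩
  have haR : (0 : ℝ) < a := by exact_mod_cast ha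
  refine ge_of_tendsto (dens_spec a) ?_
  filter_upwards [eventually_ge_atTop a] with N hN
  have hN0 : 0 < N := by omega
  have hNR : (0 : ℝ) < N := by exact_mod_cast hN0
  obtain ⟨S, hS, hcard⟩ := h (a : ℤ) (by exact_mod_cast ha) (by omega) N (by exact_mod_cast hN)
  rw [Int.cast_natCast] at hcard
  have hpos : ∀ z ∈ S, 0 < z := by
    intro z hz
    have h1 := (hS z hz).1
    have : (0 : ℝ) < z := by linarith
    exact_mod_cast this
  have hsub : ((S.image Int.toNat : Finset ℕ) : Set ℕ) ⊆ {n : ℕ | 1 ≤ n ∧ n ≤ N ∧ Pr a n} := by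
    intro n hn
    rw [Finset.mem_coe, Finset.mem_image] at hn
    obtain ⟨z, hz, rfl⟩ := hn
    have hz0 := hpos z hz
    obtain ⟨_, h2, j, _, h4⟩ := hS z hz
    have hcast : ((z.toNat : ℕ) : ℤ) = z := Int.toNat_of_nonneg hz0.le
    refine ⟨by omega, ?_, j, ?_⟩
    · have h5 : z ≤ (N : ℤ) := by exact_mod_cast h2
      omega
    · have h5 := TK_nat j z.toNat
      rw [hcast, h4] at h5
      exact_mod_cast h5.symm
  have hfin : {n : ℕ | 1 ≤ n ∧ n ≤ N ∧ Pr a n}.Finite :=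
    (Set.finite_Iic N).subset fun n hn => hn.2.1
  have h1 := Set.ncard_le_ncard hsub hfin
  rw [Set.ncard_coe_finset, Finset.card_image_of_injOn] at h1
  · have h2 : (S.card : ℝ) ≤ cnt (Pr a) N := by rw [cnt_ncard]; exact_mod_cast h1
    rw [le_div_iff₀ hNR]
    calc c / a * N = c * N / a := by ring
      _ ≤ _ := hcard.trans h2
  · intro z hz z' hz' he
    have h2 := hpos z hz
    have h3 := hpos z' hz'
    change z.toNat = z'.toNat at he
    omega

/-- only the `2 ^ k a` iterate to a multiple `a` of three -/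
theorem Pr_three {a : ℕ} (ha3 : a % 3 = 0) (k : ℕ) : ∀ n : ℕ, Tn^[k] n = a → n = 2 ^ k * a := by
  induction k with
  | zero => intro n h; simpa using h
  | succ k ih =>
    intro n h
    rw [Function.iterate_succ_apply] at h
    have h1 := ih _ h
    simp only [Tn] at h1
    have h3 : (2 ^ k * a) % 3 = 0 := by rw [Nat.mul_mod, ha3]; simp
    split_ifs at h1 with h2
    · have h4 : 2 ^ (k + 1) * a = 2 * (2 ^ k * a) := by ring
      omega
    · omega

theorem dens_three {a : ℕ} (ha : 0 < a) (ha3 : a % 3 = 0) : dens a = 0 := by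
  refine tendsto_nhds_unique (dens_spec a) ?_
  have hub : ∀ N : ℕ, cnt (Pr a) N ≤ Real.logb 2 N + 1 := by
    intro N
    rcases Nat.eq_zero_or_pos N with rfl | hN
    · have : {n : ℕ | 1 ≤ n ∧ n ≤ 0 ∧ Pr a n} = ∅ := by
        ext n; simp only [Set.mem_setOf_eq, Set.mem_empty_iff_false, iff_false]; omega
      rw [cnt_ncard, this]; simp
    have hsub : {n : ℕ | 1 ≤ n ∧ n ≤ N ∧ Pr a n}
        ⊆ (((Finset.range (Nat.log 2 N + 1)).image fun k => 2 ^ k * a : Finset ℕ) : Set ℕ) := by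
      rintro n ⟨_, h2, k, hk⟩
      have h3 := Pr_three ha3 k n hk
      rw [Finset.mem_coe, Finset.mem_image]
      refine ⟨k, ?_, h3.symm⟩
      rw [Finset.mem_range, Nat.lt_succ_iff]
      apply Nat.le_log_of_pow_le (by norm_num)
      calc 2 ^ k ≤ 2 ^ k * a := Nat.le_mul_of_pos_right _ ha
        _ ≤ N := by rw [← h3]; exact h2
    have h1 := Set.ncard_le_ncard hsub (Finset.finite_toSet _)
    rw [Set.ncard_coe_finset] at h1
    have h2 : {n : ℕ | 1 ≤ n ∧ n ≤ N ∧ Pr a n}.ncard ≤ Nat.log 2 N + 1 :=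
      h1.trans (Finset.card_image_le.trans (by rw [Finset.card_range]))
    have h3 : (Nat.log 2 N : ℝ) ≤ Real.logb 2 N := by
      have := Real.natLog_le_logb N 2
      exact_mod_cast this
    rw [cnt_ncard]
    have h4 : ({n : ℕ | 1 ≤ n ∧ n ≤ N ∧ Pr a n}.ncard : ℝ) ≤ Nat.log 2 N + 1 := by exact_mod_cast h2
    linarith
  have hlim : Tendsto (fun N : ℕ => (Real.logb 2 N + 1) / N) atTop (𝓝 0) := by
    have h1 : Tendsto (fun x : ℝ => Real.log x / x) atTop (𝓝 0) := by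
      have := Real.isLittleO_log_id_atTop
      simpa using this.tendsto_div_nhds_zero
    have h2 : Tendsto (fun N : ℕ => Real.log (N : ℝ) / (N : ℝ)) atTop (𝓝 0) :=
      h1.comp tendsto_natCast_atTop_atTop
    have h3 := (h2.div_const (Real.log 2)).add tendsto_one_div_atTop_nhds_zero_nat
    rw [zero_div, add_zero] at h3
    refine h3.congr fun N => ?_
    unfold Real.logb
    ring
  exact squeeze_zero (fun N => div_nonneg (Nat.cast_nonneg _) (Nat.cast_nonneg _))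
    (fun N => div_le_div_of_nonneg_right (hub N) (Nat.cast_nonneg _)) hlim

end Pool.Agent.Y856.PD
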